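import Pool.Agent.W323.SC.Stm

set_option autoImplicit false
open Finset
open scoped Classical

namespace Pool.Agent.W555.SC

open Pool.Agent.W323.SC

/-- the least index with the same value -/
def nf (x : Fin 4 → Fin 4) (i : Fin 4) : Fin 4 :=
  if x 0 = x i then 0 else if x 1 = x i then 1 else if x 2 = x i then 2 else 3

def LN : List (Fin 4 → Fin 4) :=
  [![0,0,0,0], ![0,0,0,3], ![0,0,2,0], ![0,0,2,2], ![0,0,2,3], ![0,1,0,0], ![0,1,0,1],
   ![0,1,0,3], ![0,1,1,0], ![0,1,1,1], ![0,1,1,3], ![0,1,2,0], ![0,1,2,1], ![0,1,2,2], ![0,1,2,3]]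

def Q24 : List (Fin 4 × Fin 4 × Fin 4 × Fin 4) :=
  [(0,1,2,3),(0,1,3,2),(0,2,1,3),(0,2,3,1),(0,3,1,2),(0,3,2,1),
   (1,0,2,3),(1,0,3,2),(1,2,0,3),(1,2,3,0),(1,3,0,2),(1,3,2,0),
   (2,0,1,3),(2,0,3,1),(2,1,0,3),(2,1,3,0),(2,3,0,1),(2,3,1,0),
   (3,0,1,2),(3,0,2,1),(3,1,0,2),(3,1,2,0),(3,2,0,1),(3,2,1,0)]

theorem nf_mem : ∀ a b c d : Fin 4, nf ![a, b, c, d] ∈ LN := by
  decide +kernel

theorem nf_eq : ∀ a b c d : Fin 4, ∀ i j : Fin 4,
    (![a, b, c, d] i = ![a, b, c, d] j ↔ nf ![a, b, c, d] i = nf ![a, b, c, d] j) := by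
  decide +kernel

theorem perm_list : (Finset.univ : Finset (Equiv.Perm (Fin 4))).val.map
    (fun g => ((g 0, g 1, g 2, g 3) : Fin 4 × Fin 4 × Fin 4 × Fin 4)) =
    (Q24 : Multiset (Fin 4 × Fin 4 × Fin 4 × Fin 4)) := by
  decide +kernel

theorem check : ∀ x ∈ LN, ∀ c ∈ LN,
    0 ≤ (Q24.map (fun q => ker4 x c q.1 q.2.1 q.2.2.1 q.2.2.2)).sum := by
  decide +kernel

theorem vec4 (x : Fin 4 → Fin 4) : x = ![x 0, x 1, x 2, x 3] := by
  funext i
  fin_cases i <;> rfl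

theorem ker4_congr (x c x' c' : Fin 4 → Fin 4) (hx : ∀ i j, x i = x j ↔ x' i = x' j)
    (hc : ∀ i j, c i = c j ↔ c' i = c' j) (i j k l : Fin 4) :
    ker4 x c i j k l = ker4 x' c' i j k l := by
  unfold ker4
  simp only [ne_eq, hx, hc]

theorem k4 : Pool.Agent.W323.SC.S_K4 := by
  intro x c
  have hx1 : nf x ∈ LN := by
    rw [vec4 x]
    exact nf_mem _ _ _ _
  have hc1 : nf c ∈ LN := by
    rw [vec4 c]
    exact nf_mem _ _ _ _
  have hx2 : ∀ i j, x i = x j ↔ nf x i = nf x j := by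
    intro i j
    have h := nf_eq (x 0) (x 1) (x 2) (x 3) i j
    rw [← vec4 x] at h
    exact h
  have hc2 : ∀ i j, c i = c j ↔ nf c i = nf c j := by
    intro i j
    have h := nf_eq (c 0) (c 1) (c 2) (c 3) i j
    rw [← vec4 c] at h
    exact h
  have h1 := check (nf x) hx1 (nf c) hc1
  have h2 : ∑ g : Equiv.Perm (Fin 4), ker4 x c (g 0) (g 1) (g 2) (g 3) =
      (Q24.map (fun q => ker4 (nf x) (nf c) q.1 q.2.1 q.2.2.1 q.2.2.2)).sum := by
    have h3 : ∑ g : Equiv.Perm (Fin 4), ker4 x c (g 0) (g 1) (g 2) (g 3) =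
        (((Finset.univ : Finset (Equiv.Perm (Fin 4))).val.map
          (fun g => ((g 0, g 1, g 2, g 3) : Fin 4 × Fin 4 × Fin 4 × Fin 4))).map
          (fun q => ker4 (nf x) (nf c) q.1 q.2.1 q.2.2.1 q.2.2.2)).sum := by
      rw [Multiset.map_map]
      unfold Finset.sum
      congr 1
      apply Multiset.map_congr rfl
      intro g _
      exact ker4_congr x c (nf x) (nf c) hx2 hc2 _ _ _ _
    rw [h3, perm_list, Multiset.map_coe, Multiset.sum_coe]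
  rw [h2]
  exact h1

end Pool.Agent.W555.SC
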